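import Pool.Agent.Helper30.SY.St

/-!
Module CHN of project SY: the integral chain from the packing and a cone.
-/

set_option autoImplicit false

namespace Pool.Agent.Helper38.SY

open Finset Pool.Agent.Helper30.SY Pool.Agent.Helper93.IA

private def ZZ {n : ℕ} (P : Finset (Fin n × Fin n × Fin n)) (a b c : Fin n) : ℤ :=
  if (a, b, c) ∈ P then 1 else 0

private def ic {n : ℕ} (Q : Finset (Fin n × Fin n)) (u v : Fin n) : ℤ :=
  if (u, v) ∈ Q then 1 else 0

private theorem sumA {n : ℕ} (P : Finset (Fin n × Fin n × Fin n))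
    (h : ∀ T ∈ P, ∀ T' ∈ P, eA T = eA T' → T = T') (u v : Fin n) :
    ∑ w, ZZ P u v w = ic (P.image eA) u v := by
  unfold ZZ ic
  by_cases hm : (u, v) ∈ P.image eA
  · rw [if_pos hm]
    obtain ⟨T, hT, he⟩ := Finset.mem_image.1 hm
    obtain ⟨a, b, c⟩ := T
    simp only [eA, Prod.mk.injEq] at he
    obtain ⟨rfl, rfl⟩ := he
    rw [Finset.sum_eq_single c]
    · rw [if_pos hT]
    · intro w _ hw
      rw [if_neg]
      intro hw'
      have := h _ hw' _ hT rfl
      simp only [Prod.mk.injEq, true_and] at this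
      exact hw this
    · intro h'; exact absurd (Finset.mem_univ _) h'
  · rw [if_neg hm]
    apply Finset.sum_eq_zero
    intro w _
    rw [if_neg]
    intro hw
    exact hm (Finset.mem_image.2 ⟨_, hw, rfl⟩)

private theorem sumB {n : ℕ} (P : Finset (Fin n × Fin n × Fin n))
    (h : ∀ T ∈ P, ∀ T' ∈ P, eB T = eB T' → T = T') (u v : Fin n) :
    ∑ w, ZZ P w u v = ic (P.image eB) u v := by
  unfold ZZ ic
  by_cases hm : (u, v) ∈ P.image eB
  · rw [if_pos hm]
    obtain ⟨T, hT, he⟩ := Finset.mem_image.1 hm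
    obtain ⟨a, b, c⟩ := T
    simp only [eB, Prod.mk.injEq] at he
    obtain ⟨rfl, rfl⟩ := he
    rw [Finset.sum_eq_single a]
    · rw [if_pos hT]
    · intro w _ hw
      rw [if_neg]
      intro hw'
      have := h _ hw' _ hT rfl
      simp only [Prod.mk.injEq, and_true] at this
      exact hw this
    · intro h'; exact absurd (Finset.mem_univ _) h'
  · rw [if_neg hm]
    apply Finset.sum_eq_zero
    intro w _
    rw [if_neg]
    intro hw
    exact hm (Finset.mem_image.2 ⟨_, hw, rfl⟩)

private theorem sumC {n : ℕ} (P : Finset (Fin n × Fin n × Fin n))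
    (h : ∀ T ∈ P, ∀ T' ∈ P, eC T = eC T' → T = T') (u v : Fin n) :
    ∑ w, ZZ P v w u = ic (P.image eC) u v := by
  unfold ZZ ic
  by_cases hm : (u, v) ∈ P.image eC
  · rw [if_pos hm]
    obtain ⟨T, hT, he⟩ := Finset.mem_image.1 hm
    obtain ⟨a, b, c⟩ := T
    simp only [eC, Prod.mk.injEq] at he
    obtain ⟨rfl, rfl⟩ := he
    rw [Finset.sum_eq_single b]
    · rw [if_pos hT]
    · intro w _ hw
      rw [if_neg]
      intro hw'
      have := h _ hw' _ hT rfl
      simp only [Prod.mk.injEq, and_true, true_and] at this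
      exact hw this
    · intro h'; exact absurd (Finset.mem_univ _) h'
  · rw [if_neg hm]
    apply Finset.sum_eq_zero
    intro w _
    rw [if_neg]
    intro hw
    exact hm (Finset.mem_image.2 ⟨_, hw, rfl⟩)

private theorem ic_sdiff {n : ℕ} (Q R : Finset (Fin n × Fin n)) (h : R ⊆ Q) (u v : Fin n) :
    ic Q u v - ic R u v = ic (Q \ R) u v := by
  unfold ic
  by_cases h1 : (u, v) ∈ R
  · have h2 := h h1
    simp [h1, h2]
  · by_cases h2 : (u, v) ∈ Q <;> simp [h1, h2]

private theorem sum_ic {n : ℕ} (Q : Finset (Fin n × Fin n)) :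
    ∑ u, ∑ v, ic Q u v = (Q.card : ℤ) := by
  unfold ic
  rw [← Finset.sum_product' (f := fun u v => if (u, v) ∈ Q then (1 : ℤ) else 0)]
  simp

private theorem card_sm {n : ℕ} (Q : Finset (Fin n × Fin n)) (t : ℝ) (h : Sm Q t) :
    (Q.card : ℝ) ≤ n * t := by
  have h1 : Q.card = ∑ a : Fin n, d1 Q a := by
    unfold d1
    rw [Finset.card_eq_sum_card_fiberwise (f := Prod.fst) (t := Finset.univ)]
    intro x _; exact Finset.mem_coe.2 (Finset.mem_univ _)
  rw [h1]; push_cast
  calc ∑ a : Fin n, (d1 Q a : ℝ) ≤ ∑ _a : Fin n, t := Finset.sum_le_sum fun a _ => h.1 a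
    _ = n * t := by simp

private theorem bdZ {n : ℕ} (P : Finset (Fin n × Fin n × Fin n))
    (hA : ∀ T ∈ P, ∀ T' ∈ P, eA T = eA T' → T = T')
    (hB : ∀ T ∈ P, ∀ T' ∈ P, eB T = eB T' → T = T')
    (hC : ∀ T ∈ P, ∀ T' ∈ P, eC T = eC T' → T = T') (u v : Fin n) :
    Pool.Agent.Helper40.TI.bd (ZZ P) u v =
      (ic (P.image eA) u v + ic (P.image eB) u v + ic (P.image eC) u v) -
      (ic (P.image eA) v u + ic (P.image eB) v u + ic (P.image eC) v u) := by
  unfold Pool.Agent.Helper40.TI.bd
  simp only [Finset.sum_add_distrib]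
  rw [sumA P hA u v, sumB P hB u v, sumC P hC u v, sumA P hA v u, sumB P hB v u, sumC P hC v u]

private theorem bd_add {n : ℕ} (X Y : Fin n → Fin n → Fin n → ℤ) (u v : Fin n) :
    Pool.Agent.Helper40.TI.bd (fun a b c => X a b c + Y a b c) u v =
      Pool.Agent.Helper40.TI.bd X u v + Pool.Agent.Helper40.TI.bd Y u v := by
  unfold Pool.Agent.Helper40.TI.bd
  simp only [Finset.sum_add_distrib]
  ring

private theorem bd_skew {n : ℕ} (X : Fin n → Fin n → Fin n → ℤ) (u v : Fin n) :
    Pool.Agent.Helper40.TI.bd X u v = - Pool.Agent.Helper40.TI.bd X v u := by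
  unfold Pool.Agent.Helper40.TI.bd
  ring

private theorem bd_col {n : ℕ} (X : Fin n → Fin n → Fin n → ℤ) (v : Fin n) :
    ∑ u, Pool.Agent.Helper40.TI.bd X u v = 0 := by
  unfold Pool.Agent.Helper40.TI.bd
  simp only [Finset.sum_sub_distrib, Finset.sum_add_distrib]
  have h1 : ∑ u, ∑ w, X u v w = ∑ u, ∑ w, X w v u := Finset.sum_comm
  have h2 : ∑ u, ∑ w, X w u v = ∑ u, ∑ w, X u w v := Finset.sum_comm
  have h3 : ∑ u, ∑ w, X v w u = ∑ u, ∑ w, X v u w := Finset.sum_comm
  rw [h1, h2, h3]; ring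

theorem hCHN : StCHN := by
  intro n s X g A B C P hg hs hP
  rcases Nat.eq_zero_or_pos n with hn | hn
  · subst hn
    refine ⟨fun _ _ _ => 0, fun a _ _ _ => a.elim0, fun u => u.elim0, ?_⟩
    simp
  have hne : Nonempty (Fin n) := ⟨⟨0, hn⟩⟩
  have hbz := bdZ P hP.pack.iA hP.pack.iB hP.pack.iC
  have hAs : P.image eA ⊆ A := by
    intro e he; obtain ⟨T, hT, rfl⟩ := Finset.mem_image.1 he; exact hP.pack.sA T hT
  have hBs : P.image eB ⊆ B := by
    intro e he; obtain ⟨T, hT, rfl⟩ := Finset.mem_image.1 he; exact hP.pack.sB T hT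
  have hCs : P.image eC ⊆ C := by
    intro e he; obtain ⟨T, hT, rfl⟩ := Finset.mem_image.1 he; exact hP.pack.sC T hT
  set D : Fin n → Fin n → ℤ := fun u v => ic (A \ P.image eA) u v + ic (B \ P.image eB) u v +
    ic (C \ P.image eC) u v with hD
  have hD0 : ∀ u v, 0 ≤ D u v := by
    intro u v; simp only [hD]; unfold ic; positivity
  set E : Fin n → Fin n → ℤ := fun u v => s u v - Pool.Agent.Helper40.TI.bd (ZZ P) u v with hE
  have hED : ∀ u v, E u v = D u v - D v u := by
    intro u v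
    by_cases huv : u = v
    · subst huv
      have h1 : s u u = 0 := by have := hs.sk u u; omega
      have h2 := bd_skew (ZZ P) u u
      simp only [hE]
      omega
    · have h1 := hP.net u v huv
      have h2 := ic_sdiff A _ hAs u v
      have h3 := ic_sdiff B _ hBs u v
      have h4 := ic_sdiff C _ hCs u v
      have h5 := ic_sdiff A _ hAs v u
      have h6 := ic_sdiff B _ hBs v u
      have h7 := ic_sdiff C _ hCs v u
      have h8 := hbz u v
      simp only [hE, hD]
      have h9 : (ic A u v + ic B u v + ic C u v) - (ic A v u + ic B v u + ic C v u) = s u v := h1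
      rw [h8, ← h2, ← h3, ← h4, ← h5, ← h6, ← h7, ← h9]
      ring
  have hEs : ∀ a b, E a b = - E b a := by
    intro a b; rw [hED, hED]; ring
  have hE0 : ∀ b, ∑ a, E a b = 0 := by
    intro b
    simp only [hE]
    rw [Finset.sum_sub_distrib, bd_col]
    have : ∑ a, s a b = - ∑ a, s b a := by
      rw [← Finset.sum_neg_distrib]
      exact Finset.sum_congr rfl fun a _ => hs.sk a b
    rw [this, hs.row b]; ring
  obtain ⟨φ, h1, h2, h3, h4⟩ := Pool.Agent.Helper40.TI.cone E hEs hE0
  have hW := Pool.Agent.Helper40.TI.bd_max φ h1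
  refine ⟨fun a b c => ZZ P a b c + max (φ b a c) 0, ?_, ?_, ?_⟩
  · intro a b c h
    by_cases hz : (a, b, c) ∈ P
    · have a1 := hP.pack.sA _ hz
      have a2 := hP.pack.sB _ hz
      have a3 := hP.pack.sC _ hz
      simp only [eA, eB, eC] at a1 a2 a3
      refine ⟨?_, ?_, ?_⟩
      · rintro rfl; exact hP.dA _ a1
      · rintro rfl; exact hP.dB _ a2
      · rintro rfl; exact hP.dC _ a3
    · have hφ : φ b a c ≠ 0 := by
        intro h0
        apply h
        simp [ZZ, hz, h0]
      obtain ⟨b1, b2⟩ := h2 _ _ _ hφ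
      refine ⟨b1.symm, b2, ?_⟩
      rintro rfl
      have := h1 b c c
      omega
  · intro u v
    rw [bd_add (ZZ P) (fun a b c => max (φ b a c) 0) u v, hW u v, h3 u v]
    simp only [hE]; ring
  · -- the cost
    have c1 : (∑ a, ∑ b, ∑ c, |ZZ P a b c + max (φ b a c) 0| : ℤ) ≤
        (P.card : ℤ) + ∑ x, ∑ a, ∑ b, max (φ x a b) 0 := by
      have e1 : (P.card : ℤ) = ∑ a, ∑ b, ∑ c, ZZ P a b c := by
        have : ∀ a b, ∑ c, ZZ P a b c = ic (P.image eA) a b := sumA P hP.pack.iA
        simp only [this]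
        rw [sum_ic]
        rw [Finset.card_image_of_injOn]
        intro T hT T' hT' h
        exact hP.pack.iA T (Finset.mem_coe.1 hT) T' (Finset.mem_coe.1 hT') h
      have e2 : ∑ x, ∑ a, ∑ b, max (φ x a b) 0 = ∑ a, ∑ b, ∑ c, max (φ b a c) 0 :=
        Finset.sum_comm
      rw [e1, e2, ← Finset.sum_add_distrib]
      apply Finset.sum_le_sum; intro a _
      rw [← Finset.sum_add_distrib]
      apply Finset.sum_le_sum; intro b _
      rw [← Finset.sum_add_distrib]
      apply Finset.sum_le_sum; intro c _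
      rw [abs_of_nonneg]
      have z0 : 0 ≤ ZZ P a b c := by unfold ZZ; split_ifs <;> norm_num
      have := le_max_right (φ b a c) 0
      omega
    have c2 : ∑ a, ∑ b, |E a b| ≤ 2 * (((A \ P.image eA).card : ℤ) + (B \ P.image eB).card +
        (C \ P.image eC).card) := by
      have k1 : ∑ a, ∑ b, |E a b| ≤ ∑ a, ∑ b, (D a b + D b a) := by
        apply Finset.sum_le_sum; intro a _
        apply Finset.sum_le_sum; intro b _
        rw [hED a b]
        have q1 := hD0 a b
        have q2 := hD0 b a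
        rw [abs_le]
        constructor <;> omega
      have k2 : ∑ a, ∑ b, D b a = ∑ a, ∑ b, D a b := Finset.sum_comm
      have k3 : ∑ a, ∑ b, D a b = ((A \ P.image eA).card : ℤ) + (B \ P.image eB).card +
          (C \ P.image eC).card := by
        simp only [hD, Finset.sum_add_distrib]
        rw [sum_ic, sum_ic, sum_ic]
      have k4 : ∑ a, ∑ b, (D a b + D b a) = ∑ a, ∑ b, D a b + ∑ a, ∑ b, D b a := by
        simp only [Finset.sum_add_distrib]
      rw [k4, k2, k3] at k1
      linarith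
    have c3 : (P.card : ℝ) ≤ A.card := by
      have : P.card = (P.image eA).card := by
        rw [Finset.card_image_of_injOn]
        intro T hT T' hT' h
        exact hP.pack.iA T (Finset.mem_coe.1 hT) T' (Finset.mem_coe.1 hT') h
      rw [this]
      exact_mod_cast Finset.card_le_card hAs
    have c4 := hP.card
    have c5 := card_sm _ _ hP.smA
    have c6 := card_sm _ _ hP.smB
    have c7 := card_sm _ _ hP.smC
    have c8 : 2 * ((∑ x, ∑ a, ∑ b, max (φ x a b) 0 : ℤ) : ℝ) ≤
        2 * (((A \ P.image eA).card : ℝ) + (B \ P.image eB).card + (C \ P.image eC).card) := by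
      exact_mod_cast h4.trans c2
    have c9 : ((∑ a, ∑ b, ∑ c, |ZZ P a b c + max (φ b a c) 0| : ℤ) : ℝ) ≤
        (P.card : ℝ) + ((∑ x, ∑ a, ∑ b, max (φ x a b) 0 : ℤ) : ℝ) := by
      exact_mod_cast c1
    refine c9.trans ?_
    nlinarith [c3, c4, c5, c6, c7, c8]

end Pool.Agent.Helper38.SY
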